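import Pool.Agent.Lib.MP_af4c59_nt.H88Main
import Pool.Agent.Lib.MP_af4c59_nt.H88Motion

/-!
The number of degree `n` extensions of a number field `K` with Galois group inside `G` and
absolute norm of the relative discriminant at most `X` is `O(X ^ (532 * ⌈log₂ d⌉))` when some
colouring of the `n` points with `d` colours has trivial stabiliser in `G`, and when the order of
`G` is at most `d ^ m` for a lower bound `m` of the indices of the non-identity elements.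
-/

namespace Pool.Agent.Variants.MP_af4c59_nt.UniformExponent

open NumberField Pool.Agent.Lib.MP_af4c59_nt

theorem result :
    ∀ (K : Type) [Field K] [NumberField K] (n : ℕ) (G : Subgroup (Equiv.Perm (Fin n))) (d : ℕ),
      2 ≤ n → 2 ≤ d →
      ((∃ χ : Fin n → Fin d, ∀ g ∈ G, (∀ i, χ (g i) = χ i) → g = 1) ∨
        ∃ m : ℕ, (∀ g ∈ G, g ≠ 1 → m ≤ g.cycleType.sum - Multiset.card g.cycleType) ∧
          Nat.card G ≤ d ^ m) →
      ∃ c : ℝ, ∀ X : ℝ, 1 ≤ X →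
      ∀ S : Set (IntermediateField K (AlgebraicClosure K)),
        S = {L : IntermediateField K (AlgebraicClosure K) | Module.finrank K L = n ∧
          (∃ e : (↥L →ₐ[K] AlgebraicClosure K) ≃ Fin n,
            ∀ σ : AlgebraicClosure K ≃ₐ[K] AlgebraicClosure K, ∃ τ ∈ G,
              ∀ φ : ↥L →ₐ[K] AlgebraicClosure K, τ (e φ) = e (σ.toAlgHom.comp φ)) ∧
          ∃ _ : NumberField L,
            (Ideal.absNorm (differentIdeal (RingOfIntegers K) (RingOfIntegers L)) : ℝ) ≤ X} →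
        S.Finite ∧ (S.ncard : ℝ) ≤ c * X ^ (532 * Nat.clog 2 d) := by
  intro K _ _ n G d hn hd hG
  obtain ⟨χ, hχ⟩ : ∃ χ : Fin n → Fin d, ∀ g ∈ G, (∀ i, χ (g i) = χ i) → g = 1 := by
    rcases hG with h | ⟨m, h1, h2⟩
    · exact h
    · exact H88.exists_colouring G (by omega) h1 h2
  obtain ⟨emb⟩ : Nonempty (Fin d ↪ (Fin (Nat.clog 2 d) → Bool)) :=
    Function.Embedding.nonempty_of_card_le (by simpa using Nat.le_pow_clog (by norm_num) d)
  obtain ⟨c, hc⟩ := H88.count_fields K n hn (Nat.clog 2 d) (Nat.clog_pos (by norm_num) hd)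
  set dd := Module.finrank ℚ K * n with hdd
  set e := 532 * Nat.clog 2 d with he
  set DK := (discr K).natAbs ^ n with hDK
  have hdd1 : 0 < dd := Nat.mul_pos Module.finrank_pos (by omega)
  have hDK1 : 0 < DK := pow_pos (Int.natAbs_pos.mpr (discr_ne_zero K)) _
  refine ⟨c * ((10 ^ dd * DK : ℕ) : ℝ) ^ e, fun X hX S hS => ?_⟩
  set Y := ⌊X⌋₊ * DK with hY
  have hX1 : 1 ≤ ⌊X⌋₊ := Nat.le_floor (by exact_mod_cast hX)
  have hY1 : 0 < 5 ^ dd * Y := Nat.mul_pos (by positivity) (Nat.mul_pos hX1 hDK1)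
  have hex : ∃ ρ : ℕ, 5 ^ dd * Y < ρ ^ dd :=
    ⟨5 ^ dd * Y + 1, lt_of_lt_of_le (Nat.lt_succ_self _) (Nat.le_self_pow (by omega) _)⟩
  classical
  set ρ := Nat.find hex with hρ
  have h1 : 5 ^ dd * Y < ρ ^ dd := Nat.find_spec hex
  have h2 : 2 ≤ ρ := by
    by_contra h
    have : ρ ^ dd ≤ 1 ^ dd := Nat.pow_le_pow_left (by omega) _
    rw [one_pow] at this
    omega
  have h3 : ρ ^ dd ≤ 10 ^ dd * Y := by
    have h4 : ¬ 5 ^ dd * Y < (ρ - 1) ^ dd := Nat.find_min hex (by omega)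
    calc ρ ^ dd ≤ (2 * (ρ - 1)) ^ dd := Nat.pow_le_pow_left (by omega) _
      _ = 2 ^ dd * (ρ - 1) ^ dd := mul_pow _ _ _
      _ ≤ 2 ^ dd * (5 ^ dd * Y) := Nat.mul_le_mul_left _ (by omega)
      _ = _ := by rw [← mul_assoc, ← mul_pow]; norm_num
  have key : ∀ T : Finset (IntermediateField K (AlgebraicClosure K)), (T : Set _) ⊆ S →
      T.card ≤ c * (ρ ^ dd) ^ e := by
    intro T hT
    refine hc ρ (by omega) T fun L hL => ?_
    obtain ⟨h4, ⟨e', he'⟩, inst, h5⟩ := hS ▸ hT hL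
    refine ⟨h4, ⟨fun φ => emb (χ (e' φ)), fun σ hσ φ => ?_⟩, inst,
      lt_of_le_of_lt (Nat.mul_le_mul_left _ ?_) h1⟩
    · obtain ⟨τ, hτ, h6⟩ := he' σ
      have h7 : τ = 1 := hχ τ hτ fun i => by
        obtain ⟨ψ, rfl⟩ := e'.surjective i
        rw [h6]
        exact emb.injective (hσ ψ)
      apply e'.injective
      rw [← h6, h7]
      rfl
    · rw [natAbs_discr_eq_absNorm_differentIdeal_mul_natAbs_discr_pow K (𝓞 K) L (𝓞 L), h4]
      exact Nat.mul_le_mul_right _ (Nat.le_floor h5)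
  have hfin : S.Finite := by
    by_contra hinf
    obtain ⟨T, hT1, hT2⟩ := Set.Infinite.exists_subset_card_eq hinf (c * (ρ ^ dd) ^ e + 1)
    have := key T hT1
    omega
  refine ⟨hfin, ?_⟩
  rw [Set.ncard_eq_toFinset_card S hfin]
  have h4 := key hfin.toFinset (by simp)
  have h5 : ((ρ ^ dd : ℕ) : ℝ) ≤ ((10 ^ dd * DK : ℕ) : ℝ) * X := by
    calc ((ρ ^ dd : ℕ) : ℝ) ≤ ((10 ^ dd * Y : ℕ) : ℝ) := by exact_mod_cast h3
      _ = ((10 ^ dd * DK : ℕ) : ℝ) * (⌊X⌋₊ : ℝ) := by rw [hY]; push_cast; ring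
      _ ≤ _ := mul_le_mul_of_nonneg_left (Nat.floor_le (by linarith)) (Nat.cast_nonneg _)
  calc (hfin.toFinset.card : ℝ) ≤ c * ((ρ ^ dd : ℕ) : ℝ) ^ e := by exact_mod_cast h4
    _ ≤ c * (((10 ^ dd * DK : ℕ) : ℝ) * X) ^ e :=
        mul_le_mul_of_nonneg_left (pow_le_pow_left₀ (Nat.cast_nonneg _) h5 _) (Nat.cast_nonneg _)
    _ = _ := by rw [mul_pow, mul_assoc]

end Pool.Agent.Variants.MP_af4c59_nt.UniformExponent
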