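import Pool.Agent.Variants.MP_af4c59_nt.UniformExponent

/-!
The number of degree `n` extensions of a number field `K` with absolute norm of the relative
discriminant at most `X` is `O(X ^ (532 * ⌈log₂ n⌉))`: the former hand-in, derived from
`UniformExponent` (full symmetric group, `n` colours).
-/

namespace Pool.Agent.Variants.MP_af4c59_nt.CountLogExponent

open NumberField

theorem result :
    ∀ (K : Type) [Field K] [NumberField K] (n : ℕ), 2 ≤ n → ∃ c : ℝ, ∀ X : ℝ, 1 ≤ X →
      ∀ S : Set (IntermediateField K (AlgebraicClosure K)),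
        S = {L : IntermediateField K (AlgebraicClosure K) | Module.finrank K L = n ∧
          ∃ _ : NumberField L,
            (Ideal.absNorm (differentIdeal (RingOfIntegers K) (RingOfIntegers L)) : ℝ) ≤ X} →
        S.Finite ∧ (S.ncard : ℝ) ≤ c * X ^ (532 * Nat.clog 2 n) := by
  intro K _ _ n hn
  obtain ⟨c, hc⟩ := Pool.Agent.Variants.MP_af4c59_nt.UniformExponent.result K n ⊤ n hn hn
    (Or.inl ⟨id, fun g _ h => Equiv.ext h⟩)
  refine ⟨c, fun X hX S hS => hc X hX S ?_⟩
  rw [hS]
  ext L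
  refine ⟨fun ⟨h1, inst, h2⟩ => ⟨h1, ?_, inst, h2⟩, fun ⟨h1, _, h2⟩ => ⟨h1, h2⟩⟩
  have : Module.Finite K L := Module.Finite.of_restrictScalars_finite ℚ K L
  let e : (↥L →ₐ[K] AlgebraicClosure K) ≃ Fin n :=
    Fintype.equivFinOfCardEq (by rw [AlgHom.card, h1])
  refine ⟨e, fun σ =>
    ⟨(e.symm.trans (AlgEquiv.arrowCongr AlgEquiv.refl σ)).trans e, trivial, fun φ => ?_⟩⟩
  simp only [Equiv.trans_apply, Equiv.symm_apply_apply]
  rfl

end Pool.Agent.Variants.MP_af4c59_nt.CountLogExponent
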