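import Pool.Agent.Lib.MP_af4c59_nt.Lower
import Pool.Agent.Lib.MP_af4c59_nt.Grp

set_option autoImplicit false

namespace Pool.Agent.Results.MP_af4c59_nt.Dihedral16

/-- The lower bound of the weak Malle conjecture over the rationals for the dihedral and the
semidihedral group of order 16 acting on 8 points. -/
theorem result :
    ∀ G : Subgroup (Equiv.Perm (Fin 8)),
      (G = Subgroup.closure {finRotate 8, Equiv.swap 1 7 * Equiv.swap 2 6 * Equiv.swap 3 5} ∨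
        G = Subgroup.closure {finRotate 8, Equiv.swap 1 3 * Equiv.swap 2 6 * Equiv.swap 5 7}) →
      IsLeast {k : ℕ | ∃ g ∈ G, g ≠ 1 ∧ k = g.cycleType.sum - Multiset.card g.cycleType} 3 ∧
      ∃ c₁ : ℝ, 0 < c₁ ∧ ∃ X₀ : ℝ, ∀ X : ℝ, X₀ ≤ X →
        c₁ * X ^ ((1 : ℝ) / 3) ≤
          ((Set.ncard {L : IntermediateField ℚ (AlgebraicClosure ℚ) |
            Module.finrank ℚ L = 8 ∧
            (∃ e : (↥L →ₐ[ℚ] AlgebraicClosure ℚ) ≃ Fin 8,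
              ∀ τ : Equiv.Perm (Fin 8), τ ∈ G ↔
                ∃ σ : AlgebraicClosure ℚ ≃ₐ[ℚ] AlgebraicClosure ℚ,
                  ∀ φ : ↥L →ₐ[ℚ] AlgebraicClosure ℚ, τ (e φ) = e (σ.toAlgHom.comp φ)) ∧
            ∃ b : Module.Basis (Fin 8) ℤ (NumberField.RingOfIntegers ↥L),
              (((|Algebra.discr ℤ ⇑b| : ℤ)) : ℝ) ≤ X} : ℕ) : ℝ) := by
  intro G hG
  have h : ∃ k : Fin 8, (k = 3 ∨ k = 7) ∧
      ∀ τ, τ ∈ G ↔ ∃ b, (∀ i, τ i = i + b) ∨ (∀ i, τ i = k * i + b) := by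
    rcases hG with rfl | rfl
    · exact ⟨7, Or.inr rfl, Lib.MP_af4c59_nt.closure_eq 7 (by decide) _ (by decide)⟩
    · exact ⟨3, Or.inl rfl, Lib.MP_af4c59_nt.closure_eq 3 (by decide) _ (by decide)⟩
  obtain ⟨k, hk, hG⟩ := h
  obtain ⟨c, hc, X₀, -, h⟩ := Lib.MP_af4c59_nt.lower_bound k hk G hG
  exact ⟨Lib.MP_af4c59_nt.ind_eq k hk G hG, c, hc, X₀, h⟩

end Pool.Agent.Results.MP_af4c59_nt.Dihedral16
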