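import Pool.Agent.Lib.MP_af4c59_nt.H57Main
import Pool.Agent.Lib.MP_af4c59_nt.H57LowD

set_option autoImplicit false

namespace Pool.Agent.Variants.MP_af4c59_nt.DihedralFive

/-- The weak form of Malle's conjecture over the rationals for the dihedral group of order ten
acting on five points. -/
theorem result :
    IsLeast {k : ℕ | ∃ g ∈ Subgroup.closure
        ({finRotate 5, Fin.revPerm} : Set (Equiv.Perm (Fin 5))), g ≠ 1 ∧
      k = g.cycleType.sum - Multiset.card g.cycleType} 2 ∧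
    ∀ N : ℝ → ℝ,
      (∀ X : ℝ, N X = ((Set.ncard {L : IntermediateField ℚ (AlgebraicClosure ℚ) |
          Module.finrank ℚ L = 5 ∧
          (∃ e : (↥L →ₐ[ℚ] AlgebraicClosure ℚ) ≃ Fin 5,
            ∀ τ : Equiv.Perm (Fin 5), τ ∈ Subgroup.closure
                ({finRotate 5, Fin.revPerm} : Set (Equiv.Perm (Fin 5))) ↔
              ∃ σ : AlgebraicClosure ℚ ≃ₐ[ℚ] AlgebraicClosure ℚ,
                ∀ φ : ↥L →ₐ[ℚ] AlgebraicClosure ℚ, τ (e φ) = e (σ.toAlgHom.comp φ)) ∧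
          ∃ b : Module.Basis (Fin 5) ℤ (NumberField.RingOfIntegers ↥L),
            (((|Algebra.discr ℤ ⇑b| : ℤ)) : ℝ) ≤ X} : ℕ) : ℝ)) →
      (∃ c₁ : ℝ, 0 < c₁ ∧ ∃ X₀ : ℝ, ∀ X : ℝ, X₀ ≤ X →
          c₁ * X ^ ((1 : ℝ) / 2) ≤ N X) ∧
      (∀ ε : ℝ, 0 < ε → ∃ c₂ : ℝ, 0 < c₂ ∧ ∃ X₀ : ℝ, ∀ X : ℝ, X₀ ≤ X →
          N X < c₂ * X ^ ((1 : ℝ) / 2 + ε)) := by
  refine ⟨?_, fun N hN => ⟨?_, fun ε hε => ?_⟩⟩
  · constructor
    · refine ⟨Fin.revPerm, Subgroup.subset_closure (by simp), by decide, ?_⟩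
      decide +kernel
    · rintro k ⟨g, hg, h1, rfl⟩
      obtain ⟨a, h⟩ := Lib.MP_af4c59_nt.H57.mem_D5 hg
      have key : ∀ g : Equiv.Perm (Fin 5), ∀ a : Fin 5, g ≠ 1 →
          ((∀ i, g i = a + i) ∨ ∀ i, g i = a - i) →
          2 ≤ g.cycleType.sum - Multiset.card g.cycleType := by
        decide +kernel
      exact key g a h1 h
  · obtain ⟨c, hc, X₀, h⟩ := Lib.MP_af4c59_nt.H57.lower_bound
    refine ⟨c, hc, X₀, fun X hX => ?_⟩
    rw [hN]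
    exact h X hX
  · obtain ⟨C, hC, h⟩ := Lib.MP_af4c59_nt.H57.upper_bound hε
    refine ⟨C + 1, by linarith, 1, fun X hX => ?_⟩
    have h1 := h X hX
    have h2 : 0 < X ^ ((1 : ℝ) / 2 + ε) := Real.rpow_pos_of_pos (by linarith) _
    rw [hN]
    refine lt_of_le_of_lt h1 ?_
    nlinarith

end Pool.Agent.Variants.MP_af4c59_nt.DihedralFive
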