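import Pool.Agent.Results.MP_af4c59_nt.ThreeLayersOfOrderThree

set_option autoImplicit false

namespace Pool.Agent.Variants.MP_af4c59_nt.TwoLayersOfOrderThree

/-- The sharp upper bound of the weak Malle conjecture over the rationals for every transitive
permutation group that has, above a term of its upper central series, two normal layers of order
dividing three with a nilpotent quotient on top. -/
theorem result :
    ∀ (n : ℕ) (G : Subgroup (Equiv.Perm (Fin n))),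
      2 ≤ n → (∀ i j : Fin n, ∃ g ∈ G, g i = j) →
      (∃ (k : ℕ) (A B : Subgroup G) (_ : A.Normal) (_ : B.Normal),
        Subgroup.upperCentralSeries G k ≤ A ∧ A ≤ B ∧
        (Subgroup.upperCentralSeries G k).relIndex A ∣ 3 ∧ A.relIndex B ∣ 3 ∧
        Group.IsNilpotent (G ⧸ B)) →
      ∀ m : ℕ,
        IsLeast {k : ℕ | ∃ g ∈ G, g ≠ 1 ∧ k = g.cycleType.sum - Multiset.card g.cycleType} m →
      ∀ S : ℝ → Set (IntermediateField ℚ (AlgebraicClosure ℚ)),
        (∀ X : ℝ, S X = {L : IntermediateField ℚ (AlgebraicClosure ℚ) |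
            Module.finrank ℚ L = n ∧
            (∃ e : (↥L →ₐ[ℚ] AlgebraicClosure ℚ) ≃ Fin n,
              ∀ τ : Equiv.Perm (Fin n), τ ∈ G ↔
                ∃ σ : AlgebraicClosure ℚ ≃ₐ[ℚ] AlgebraicClosure ℚ,
                  ∀ φ : ↥L →ₐ[ℚ] AlgebraicClosure ℚ, τ (e φ) = e (σ.toAlgHom.comp φ)) ∧
            ∃ b : Module.Basis (Fin n) ℤ (NumberField.RingOfIntegers ↥L),
              (((|Algebra.discr ℤ ⇑b| : ℤ)) : ℝ) ≤ X}) →
        (∀ X : ℝ, (S X).Finite) ∧
        ∀ ε : ℝ, 0 < ε → ∃ c₂ : ℝ, 0 < c₂ ∧ ∃ X₀ : ℝ, ∀ X : ℝ, X₀ ≤ X →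
          ((Set.ncard (S X) : ℕ) : ℝ) < c₂ * X ^ ((1 : ℝ) / (m : ℝ) + ε) := by
  rintro n G hn ht ⟨k, A, B, a, b, k1, k2, k3, k4, k5⟩
  exact Results.MP_af4c59_nt.ThreeLayersOfOrderThree.result n G hn ht
    ⟨k, _, A, B, inferInstance, a, b, le_rfl, k1, k2, by simp, k3, k4, k5, fun g => Or.inl
      fun x hx => mul_mem (Subgroup.Normal.conj_mem inferInstance x hx g) (inv_mem hx)⟩

end Pool.Agent.Variants.MP_af4c59_nt.TwoLayersOfOrderThree
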