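import Pool.Agent.Lib.MP_af4c59_nt.K9Main

set_option autoImplicit false

namespace Pool.Agent.Variants.MP_af4c59_nt.WreathSumZero

/-- The sharp upper bound of the weak Malle conjecture over the rationals for the sum-zero
subgroup of the wreath product of the cyclic group of order three with the symmetric group on
three points, acting on nine points. -/
theorem result :
    ∃ G : Subgroup (Equiv.Perm (Fin 9)),
      (∀ τ : Equiv.Perm (Fin 9), τ ∈ G ↔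
        ∃ (π : Equiv.Perm (Fin 3)) (v : Fin 3 → Fin 3), v 0 + v 1 + v 2 = 0 ∧
          ∀ i a : Fin 3, τ (finProdFinEquiv (i, a)) = finProdFinEquiv (π i, a + v i)) ∧
      IsLeast {k : ℕ | ∃ g ∈ G, g ≠ 1 ∧ k = g.cycleType.sum - Multiset.card g.cycleType} 3 ∧
      ∀ S : ℝ → Set (IntermediateField ℚ (AlgebraicClosure ℚ)),
        (∀ X : ℝ, S X = {L : IntermediateField ℚ (AlgebraicClosure ℚ) |
            Module.finrank ℚ L = 9 ∧
            (∃ e : (↥L →ₐ[ℚ] AlgebraicClosure ℚ) ≃ Fin 9,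
              ∀ τ : Equiv.Perm (Fin 9), τ ∈ G ↔
                ∃ σ : AlgebraicClosure ℚ ≃ₐ[ℚ] AlgebraicClosure ℚ,
                  ∀ φ : ↥L →ₐ[ℚ] AlgebraicClosure ℚ, τ (e φ) = e (σ.toAlgHom.comp φ)) ∧
            ∃ b : Module.Basis (Fin 9) ℤ (NumberField.RingOfIntegers ↥L),
              (((|Algebra.discr ℤ ⇑b| : ℤ)) : ℝ) ≤ X}) →
        (∀ X : ℝ, (S X).Finite) ∧
        ∀ ε : ℝ, 0 < ε → ∃ c₂ : ℝ, 0 < c₂ ∧ ∃ X₀ : ℝ, ∀ X : ℝ, X₀ ≤ X →
          ((Set.ncard (S X) : ℕ) : ℝ) < c₂ * X ^ ((1 : ℝ) / 3 + ε) := by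
  obtain ⟨G, hG, hind⟩ := Lib.MP_af4c59_nt.K9.exists_G
  refine ⟨G, hG, hind, fun S hS => ⟨fun X => ?_, fun ε hε => ?_⟩⟩
  · rw [hS]
    exact Lib.MP_af4c59_nt.FS_finite (n := 9) (by norm_num) G X
  · obtain ⟨C, hC, h⟩ := Lib.MP_af4c59_nt.K9.upper_bound hG hε
    refine ⟨C + 1, by linarith, 1, fun X hX => ?_⟩
    have h1 := h X hX
    have h2 : 0 < X ^ ((1 : ℝ) / 3 + ε) := Real.rpow_pos_of_pos (by linarith) _
    rw [hS]
    refine lt_of_le_of_lt h1 ?_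
    nlinarith

end Pool.Agent.Variants.MP_af4c59_nt.WreathSumZero
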